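import Pool.Agent.H181.HP.Main
import Pool.Agent.H181.HP.EM
import Pool.Agent.H181.HP.TaskPh
import Pool.Agent.H181.HP.TaskHm
import Pool.Agent.H181.HP.TaskUlt
import Pool.Agent.H181.HP.TaskLev
import Pool.Agent.H181.HP.TaskCard
import Pool.Agent.H181.HP.TaskSum
import Pool.Agent.H181.HP.TaskDbl
import Pool.Agent.H181.HP.TaskCc
import Pool.Agent.H181.HP.TaskQ
import Pool.Agent.H181.HP.TaskFin
import Pool.Agent.H181.HP.TaskFatou
import Pool.Agent.H181.HP.TaskExp

/-!
# MP_133e92_pr: recurrence for every `α ≤ 1`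

For every random graph on the hierarchical group of order `N` whose edge probabilities are at
most those of the problem file with `α ≤ 1`, almost surely the graph is locally finite and simple
random walk is recurrent on every component with at least two vertices, in particular on the
infinite one.  No independence of the edges is needed.  Hence `α_c ≥ 1`, and the walk is
recurrent at `α = 1`.
-/

open MeasureTheory

namespace Pool.Agent.Results.MP_133e92_pr.RecurrentUpToOne

open Pool.Agent.H181.HP Pool.Agent.H424R3.Pow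

theorem result (N : ℕ) (hN : 2 ≤ N) (C0 C1 C2 α : ℝ) (h0 : 0 ≤ C0) (h1 : 0 ≤ C1) (h2 : 0 < C2)
    (hα : α ≤ 1) (Ω : Type) [MeasurableSpace Ω] (P : Measure Ω) [IsProbabilityMeasure P]
    (G : Ω → SimpleGraph (HG N))
    (hmeas : ∀ x y, MeasurableSet {ω | (G ω).Adj x y})
    (hp : ∀ x y, x ≠ y → P {ω | (G ω).Adj x y} ≤
      ENNReal.ofReal (min (cc C0 C1 C2 α (hdist x y) / (N : ℝ) ^ (2 * hdist x y)) 1)) :
    ∀ᵐ ω ∂P, (∀ x, ((G ω).neighborSet x).Finite) ∧
      ∀ x, ((G ω).neighborSet x).Nonempty → Recurrent (G ω) x :=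
  assembly taskEM TaskPh.main THm.main TaskUlt.main TaskLev.main TaskCard.main
    TaskSum.main TaskDbl.main TaskCc.main TaskQ.main TaskFin.main TaskFatou.main TaskExp.main
    N hN C0 C1 C2 α h0 h1 h2 hα Ω P G hmeas hp

end Pool.Agent.Results.MP_133e92_pr.RecurrentUpToOne
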